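import Mathlib

/-! Frobenius' divisibility theorem for Hall divisors: in a finite group the number of elements
whose order avoids a prime `p` is divisible by the full power of every other prime. -/

namespace Pool.Agent.Lib.MP_acde3d_al

open Finset

/-- A sum of a conjugation invariant function over a conjugation invariant set. -/
theorem dvd_sum_conj {K : Type} [Group K] [Fintype K] (d : ℕ) (f : K → ℕ)
    (hf : ∀ g y : K, f (g * y * g⁻¹) = f y)
    (hd : ∀ y : K, d ∣ (Subgroup.centralizer ({y} : Set K)).index * f y) :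
    d ∣ ∑ y : K, f y := by
  classical
  rw [← Finset.sum_fiberwise (s := Finset.univ) (g := fun y : K => ConjClasses.mk y) f]
  refine Finset.dvd_sum fun c _ => ?_
  obtain ⟨y, rfl⟩ := ConjClasses.mk_surjective c
  have h1 : ∀ x ∈ Finset.univ.filter (fun x : K => ConjClasses.mk x = ConjClasses.mk y),
      f x = f y := by
    intro x hx
    have h := (Finset.mem_filter.1 hx).2
    rw [ConjClasses.mk_eq_mk_iff_isConj] at h
    obtain ⟨g, hg⟩ := isConj_iff.1 h.symm
    rw [← hg, hf]
  rw [Finset.sum_congr rfl h1, Finset.sum_const, smul_eq_mul]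
  have h2 : (Finset.univ.filter (fun x : K => ConjClasses.mk x = ConjClasses.mk y)).card =
      (Subgroup.centralizer ({y} : Set K)).index := by
    have e : (K ⧸ Subgroup.centralizer ({y} : Set K)) ≃
        {x : K // ConjClasses.mk x = ConjClasses.mk y} := by
      refine Equiv.ofBijective (Quotient.lift (fun g : K => (⟨g * y * g⁻¹, ?_⟩ :
        {x : K // ConjClasses.mk x = ConjClasses.mk y})) ?_) ⟨?_, ?_⟩
      · rw [ConjClasses.mk_eq_mk_iff_isConj]
        exact (isConj_iff.2 ⟨g, rfl⟩).symm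
      · intro a b hab
        have h : a⁻¹ * b ∈ Subgroup.centralizer ({y} : Set K) := QuotientGroup.leftRel_apply.1 hab
        have h' := Subgroup.mem_centralizer_singleton_iff.1 h
        apply Subtype.ext
        show a * y * a⁻¹ = b * y * b⁻¹
        calc a * y * a⁻¹ = a * (y * (a⁻¹ * b)) * b⁻¹ := by group
          _ = a * ((a⁻¹ * b) * y) * b⁻¹ := by rw [h']
          _ = b * y * b⁻¹ := by group
      · intro a b
        induction a using Quotient.inductionOn with
        | h a =>
        induction b using Quotient.inductionOn with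
        | h b =>
        intro hab
        have h : a * y * a⁻¹ = b * y * b⁻¹ := congrArg Subtype.val hab
        apply Quotient.sound
        refine QuotientGroup.leftRel_apply.2 (Subgroup.mem_centralizer_singleton_iff.2 ?_)
        calc a⁻¹ * b * y = a⁻¹ * (b * y * b⁻¹) * b := by group
          _ = a⁻¹ * (a * y * a⁻¹) * b := by rw [h]
          _ = y * (a⁻¹ * b) := by group
      · rintro ⟨x, hx⟩
        have h := hx
        rw [ConjClasses.mk_eq_mk_iff_isConj] at h
        obtain ⟨g, hg⟩ := isConj_iff.1 h.symm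
        exact ⟨Quotient.mk _ g, Subtype.ext hg⟩
    rw [Subgroup.index, Nat.card_congr e, Nat.card_eq_fintype_card, Fintype.card_subtype]
  rw [h2]
  exact hd y

/-- The number of solutions of `z ^ N = 1` commuting with `y`. -/
noncomputable def cnt {K : Type} [Group K] (N : ℕ) (y : K) : ℕ :=
  Nat.card {z : K // z ^ N = 1 ∧ z * y = y * z}

theorem cnt_conj {K : Type} [Group K] (N : ℕ) (g y : K) : cnt N (g * y * g⁻¹) = cnt N y := by
  refine Nat.card_congr ((MulAut.conj g).toEquiv.subtypeEquiv fun z => ?_).symm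
  show (z ^ N = 1 ∧ z * y = y * z) ↔ ((g * z * g⁻¹) ^ N = 1 ∧
    (g * z * g⁻¹) * (g * y * g⁻¹) = (g * y * g⁻¹) * (g * z * g⁻¹))
  rw [conj_pow, conj_eq_one_iff, conj_mul, conj_mul, mul_left_inj, mul_right_inj]

theorem cnt_eq {K : Type} [Group K] (N : ℕ) (y : K) :
    cnt N y = Nat.card {z : Subgroup.centralizer ({y} : Set K) // z ^ N = 1} := by
  refine Nat.card_congr ⟨fun z => ⟨⟨z.1, Subgroup.mem_centralizer_singleton_iff.2 z.2.2⟩,
    Subtype.ext z.2.1⟩, fun z => ⟨z.1.1, congrArg Subtype.val z.2,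
      Subgroup.mem_centralizer_singleton_iff.1 z.1.2⟩, fun _ => rfl, fun _ => rfl⟩

/-- Counting along the decomposition of an element into commuting coprime parts. -/
theorem card_fiber {K : Type} [Group K] {N m e : ℕ} (hK : ∀ x : K, x ^ (N * m) = 1)
    (he0 : N ∣ e) (he1 : e ≡ 1 [MOD m]) (y : K) (hy : y ^ m = 1) :
    Nat.card {x : K // x ^ e = y} = cnt N y := by
  have hye : y ^ e = y := by
    have := pow_eq_pow_of_modEq he1 hy
    rwa [pow_one] at this
  refine Nat.card_congr ⟨fun x => ⟨x.1 * y⁻¹, ?_, ?_⟩, fun z => ⟨z.1 * y, ?_⟩, fun x => ?_,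
    fun z => ?_⟩
  · obtain ⟨x, rfl⟩ := x
    have hc : Commute x (x ^ e)⁻¹ := (Commute.self_pow x e).inv_right
    rw [hc.mul_pow, inv_pow, ← pow_mul]
    have h : e * N ≡ N [MOD N * m] := by
      have := Nat.ModEq.mul_left' (c := N) he1
      rwa [mul_one, mul_comm N e] at this
    rw [pow_eq_pow_of_modEq h (hK x), mul_inv_cancel]
  · obtain ⟨x, rfl⟩ := x
    have hc : Commute x (x ^ e) := Commute.self_pow x e
    show x * (x ^ e)⁻¹ * x ^ e = x ^ e * (x * (x ^ e)⁻¹)
    rw [inv_mul_cancel_right, ← mul_assoc, ← hc.eq, mul_inv_cancel_right]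
  · obtain ⟨z, hz, hc⟩ := z
    have hc' : Commute z y := hc
    obtain ⟨k, rfl⟩ := he0
    show (z * y) ^ (N * k) = y
    rw [hc'.mul_pow, hye, pow_mul, hz, one_pow, one_mul]
  · exact Subtype.ext (inv_mul_cancel_right _ _)
  · exact Subtype.ext (mul_inv_cancel_right _ _)

theorem card_pred {K : Type} [Group K] [Fintype K] {N m e : ℕ} (hK : ∀ x : K, x ^ (N * m) = 1)
    (he0 : N ∣ e) (he1 : e ≡ 1 [MOD m]) (P : K → Prop) [DecidablePred P]
    [DecidablePred fun y : K => y ^ m = 1 ∧ P y] :
    Nat.card {x : K // P (x ^ e)} = ∑ y : K, if y ^ m = 1 ∧ P y then cnt N y else 0 := by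
  classical
  rw [Nat.card_eq_fintype_card, Fintype.card_subtype,
    Finset.card_eq_sum_card_fiberwise (f := fun x : K => x ^ e) (t := Finset.univ)
      (fun _ _ => Finset.mem_coe.2 (Finset.mem_univ _))]
  refine Finset.sum_congr rfl fun y _ => ?_
  split_ifs with h
  · rw [← card_fiber hK he0 he1 y h.1, Nat.card_eq_fintype_card, Fintype.card_subtype]
    congr 1
    ext x
    simp only [Finset.mem_filter, Finset.mem_univ, true_and]
    exact ⟨fun hx => hx.2, fun hx => ⟨by rw [hx]; exact h.2, hx⟩⟩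
  · rw [Finset.card_eq_zero, Finset.eq_empty_iff_forall_notMem]
    intro x hx
    simp only [Finset.mem_filter, Finset.mem_univ, true_and] at hx
    refine h ⟨?_, hx.2 ▸ hx.1⟩
    obtain ⟨k, rfl⟩ := he0
    rw [← hx.2, ← pow_mul, mul_right_comm, pow_mul, hK, one_pow]

theorem exists_exp {q : ℕ} (a m : ℕ) (hm : Nat.Coprime q m) :
    ∃ e : ℕ, q ^ a ∣ e ∧ e ≡ 1 [MOD m] := by
  obtain ⟨e, h0, h1⟩ := Nat.chineseRemainder (Nat.Coprime.pow_left a hm) 0 1
  exact ⟨e, (Nat.modEq_zero_iff_dvd.1 h0), h1⟩

theorem pow_full {K : Type} [Group K] [Finite K] {q a : ℕ} (ha : (Nat.card K).factorization q ≤ a)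
    (x : K) : x ^ (q ^ a * ordCompl[q] (Nat.card K)) = 1 := by
  obtain ⟨b, rfl⟩ := Nat.exists_eq_add_of_le ha
  rw [pow_add, mul_right_comm, Nat.ordProj_mul_ordCompl_eq_self, pow_mul, pow_card_eq_one',
    one_pow]

theorem dvd_index_mul {K : Type} [Group K] [Finite K] (q : ℕ) (C : Subgroup K) (n : ℕ)
    (h : ordProj[q] (Nat.card C) ∣ n) : ordProj[q] (Nat.card K) ∣ C.index * n := by
  rw [← C.index_mul_card, Nat.ordProj_mul q C.index_ne_zero_of_finite Nat.card_pos.ne']
  exact Nat.mul_dvd_mul (Nat.ordProj_dvd _ _) h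

theorem fact_le {K : Type} [Group K] [Finite K] (q : ℕ) (C : Subgroup K) :
    (Nat.card C).factorization q ≤ (Nat.card K).factorization q :=
  (Nat.factorization_le_iff_dvd Nat.card_pos.ne' Nat.card_pos.ne').2 C.card_subgroup_dvd_card q

/-- The number of `q`-elements is divisible by the order of a Sylow `q`-subgroup. -/
theorem sylow_dvd {q : ℕ} (hq : q.Prime) (a : ℕ) (n : ℕ) :
    ∀ (K : Type) [Group K] [Finite K], Nat.card K = n → (Nat.card K).factorization q ≤ a →
      ordProj[q] (Nat.card K) ∣ Nat.card {z : K // z ^ q ^ a = 1} := by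
  induction n using Nat.strong_induction_on with
  | _ n ih =>
  intro K _ _ hn ha
  classical
  have := Fintype.ofFinite K
  set m := ordCompl[q] (Nat.card K) with hm
  have hcop : Nat.Coprime q m := Nat.coprime_ordCompl hq Nat.card_pos.ne'
  obtain ⟨e, he0, he1⟩ := exists_exp a m hcop
  have hK : ∀ x : K, x ^ (q ^ a * m) = 1 := pow_full ha
  have hA := card_pred hK he0 he1 (fun y : K => y ∈ Subgroup.center K)
  have hB := card_pred hK he0 he1 (fun y : K => y ∉ Subgroup.center K)
  have hsum : Nat.card {x : K // x ^ e ∈ Subgroup.center K} +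
      Nat.card {x : K // x ^ e ∉ Subgroup.center K} = Nat.card K := by
    rw [← Nat.card_sum]
    exact Nat.card_congr (Equiv.sumCompl _)
  have hBd : ordProj[q] (Nat.card K) ∣ Nat.card {x : K // x ^ e ∉ Subgroup.center K} := by
    rw [hB]
    refine dvd_sum_conj _ _ (fun g y => ?_) (fun y => ?_)
    · have h1 : g * y * g⁻¹ ∈ Subgroup.center K ↔ y ∈ Subgroup.center K := by
        refine ⟨fun h => ?_, fun h => Subgroup.Normal.conj_mem inferInstance _ h g⟩
        have := Subgroup.Normal.conj_mem (H := Subgroup.center K) inferInstance _ h g⁻¹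
        simpa [mul_assoc] using this
      simp only [conj_pow, conj_eq_one_iff, h1, cnt_conj]
    · split_ifs with h
      · refine dvd_index_mul q _ _ ?_
        rw [cnt_eq]
        refine ih _ ?_ _ rfl ((fact_le q _).trans ha)
        rw [← hn]
        refine lt_of_le_of_ne (Subgroup.card_le_card_group _) fun h2 => h.2 ?_
        have h3 := (Subgroup.card_eq_iff_eq_top _).1 h2
        rw [Subgroup.mem_center_iff]
        intro g
        have : g ∈ Subgroup.centralizer ({y} : Set K) := by rw [h3]; trivial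
        exact Subgroup.mem_centralizer_singleton_iff.1 this
      · simp
  have hAd : ordProj[q] (Nat.card K) ∣ Nat.card {x : K // x ^ e ∈ Subgroup.center K} := by
    refine (Nat.dvd_add_left hBd).1 ?_
    rw [hsum]
    exact Nat.ordProj_dvd _ _
  let Z : Subgroup K :=
    { carrier := {y | y ^ m = 1 ∧ y ∈ Subgroup.center K}
      one_mem' := ⟨one_pow _, Subgroup.one_mem _⟩
      mul_mem' := fun {x y} hx hy => ⟨by
        have hc : Commute x y := Subgroup.mem_center_iff.1 hy.2 x
        rw [hc.mul_pow, hx.1, hy.1, one_mul], Subgroup.mul_mem _ hx.2 hy.2⟩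
      inv_mem' := fun {x} hx => ⟨by rw [inv_pow, hx.1, inv_one], Subgroup.inv_mem _ hx.2⟩ }
  have hZ : Nat.Coprime q (Nat.card Z) := by
    rw [hq.coprime_iff_not_dvd]
    intro h
    have : Fact q.Prime := ⟨hq⟩
    obtain ⟨z, hz⟩ := exists_prime_orderOf_dvd_card' q h
    have h1 : orderOf z ∣ m := orderOf_dvd_of_pow_eq_one (Subtype.ext z.2.1)
    rw [hz] at h1
    exact (hq.coprime_iff_not_dvd.1 hcop) h1
  have hA' : Nat.card {x : K // x ^ e ∈ Subgroup.center K} =
      Nat.card Z * Nat.card {z : K // z ^ q ^ a = 1} := by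
    rw [hA, ← Finset.sum_filter]
    have h1 : ∀ y ∈ Finset.univ.filter (fun y : K => y ^ m = 1 ∧ y ∈ Subgroup.center K),
        cnt (q ^ a) y = Nat.card {z : K // z ^ q ^ a = 1} := by
      intro y hy
      have hy' := (Finset.mem_filter.1 hy).2.2
      exact Nat.card_congr (Equiv.subtypeEquivRight fun z =>
        ⟨fun h => h.1, fun h => ⟨h, Subgroup.mem_center_iff.1 hy' z⟩⟩)
    rw [Finset.sum_congr rfl h1, Finset.sum_const, smul_eq_mul]
    congr 1
    rw [← Fintype.card_subtype, ← Nat.card_eq_fintype_card]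
    rfl
  rw [hA'] at hAd
  exact (Nat.Coprime.pow_left _ hZ).dvd_of_dvd_mul_left hAd

/-- Frobenius: the number of elements of order prime to `p` is divisible by the order of a Sylow
`q`-subgroup for every prime `q` other than `p`. -/
theorem regular_dvd {K : Type} [Group K] [Finite K] {p q : ℕ} (hp : p.Prime) (hq : q.Prime)
    (hpq : p ≠ q) : ordProj[q] (Nat.card K) ∣ Nat.card {x : K // ¬ p ∣ orderOf x} := by
  classical
  have := Fintype.ofFinite K
  set a := (Nat.card K).factorization q with ha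
  set m := ordCompl[q] (Nat.card K) with hm
  have hcop : Nat.Coprime q m := Nat.coprime_ordCompl hq Nat.card_pos.ne'
  obtain ⟨e, he0, he1⟩ := exists_exp a m hcop
  have hK : ∀ x : K, x ^ (q ^ a * m) = 1 := pow_full le_rfl
  have hA := card_pred hK he0 he1 (fun y : K => ¬ p ∣ orderOf y)
  have hiff : ∀ x : K, p ∣ orderOf x ↔ p ∣ orderOf (x ^ e) := by
    intro x
    refine ⟨fun h => ?_, fun h => h.trans (orderOf_pow_dvd e)⟩
    have h1 : e * q ^ a ≡ q ^ a [MOD q ^ a * m] := by
      have := Nat.ModEq.mul_left' (c := q ^ a) he1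
      rwa [mul_one, mul_comm (q ^ a) e] at this
    have h2 : x ^ (q ^ a * orderOf (x ^ e)) = 1 := by
      rw [pow_mul, ← pow_eq_pow_of_modEq h1 (hK x), pow_mul, ← pow_mul (x ^ e), mul_comm,
        pow_mul, pow_orderOf_eq_one, one_pow]
    have h3 := h.trans (orderOf_dvd_of_pow_eq_one h2)
    exact (Nat.Coprime.pow_right a ((Nat.coprime_primes hp hq).2 hpq)).dvd_of_dvd_mul_left h3
  have hB : Nat.card {x : K // ¬ p ∣ orderOf x} = Nat.card {x : K // ¬ p ∣ orderOf (x ^ e)} :=
    Nat.card_congr (Equiv.subtypeEquivRight fun x => not_congr (hiff x))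
  rw [hB, hA]
  refine dvd_sum_conj _ _ (fun g y => ?_) (fun y => ?_)
  · have h1 : orderOf (g * y * g⁻¹) = orderOf y :=
      (SemiconjBy.orderOf_eq g (by simp [SemiconjBy])).symm
    simp only [conj_pow, conj_eq_one_iff, h1, cnt_conj]
  · split_ifs with h
    · refine dvd_index_mul q _ _ ?_
      rw [cnt_eq]
      exact sylow_dvd hq a _ _ rfl (fact_le q _)
    · simp

end Pool.Agent.Lib.MP_acde3d_al
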