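import Pool.Agent.Lib.MP_acde3d_al.Rec
import Pool.Agent.Lib.MP_acde3d_al.Frob

/-! An isomorphism of generalized non-coprime graphs preserves the primes dividing the order of
the subgroup. -/

namespace Pool.Agent.Lib.MP_acde3d_al

variable {G G' : Type} [Group G] [Group G']

theorem gcd_prime_ne_one {n p : ℕ} (hp : p.Prime) : Nat.gcd n p ≠ 1 ↔ p ∣ n := by
  rw [Ne, Nat.gcd_comm, ← Nat.coprime_iff_gcd_eq_one, hp.coprime_iff_not_dvd, not_not]

theorem gcd_ne_one_of_dvd {n k p : ℕ} (hp : p.Prime) (h1 : p ∣ n) (h2 : p ∣ k) :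
    Nat.gcd n k ≠ 1 := fun h => hp.ne_one (Nat.dvd_one.1 (h ▸ Nat.dvd_gcd h1 h2))

theorem closed_iff {H : Subgroup G} (x h : {g : G // g ≠ 1}) (hh : h.1 ∈ H) :
    (x = h ∨ (ncGraph H).Adj x h) ↔ Nat.gcd (orderOf x.1) (orderOf h.1) ≠ 1 := by
  constructor
  · rintro (rfl | hx)
    · rw [Nat.gcd_self, Ne, orderOf_eq_one_iff]
      exact x.2
    · exact hx.2.1
  · intro hg
    by_cases hx : x = h
    · exact Or.inl hx
    · exact Or.inr ⟨hx, hg, Or.inr hh⟩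

theorem gcd_iff {H : Subgroup G} {H' : Subgroup G'} (hH' : H' ≠ ⊥)
    (φ : ncGraph H ≃g ncGraph H') (x h : {g : G // g ≠ 1}) (hh : h.1 ∈ H) :
    Nat.gcd (orderOf x.1) (orderOf h.1) ≠ 1 ↔
      Nat.gcd (orderOf (φ x).1) (orderOf (φ h).1) ≠ 1 := by
  rw [← closed_iff x h hh, ← closed_iff (φ x) (φ h) (maps_to hH' φ h hh), φ.map_adj_iff,
    φ.injective.eq_iff]

theorem exists_order [Finite G] (H : Subgroup G) {p : ℕ} (hp : p.Prime) (h : p ∣ Nat.card H) :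
    ∃ y : {g : G // g ≠ 1}, y.1 ∈ H ∧ orderOf y.1 = p := by
  have : Fact p.Prime := ⟨hp⟩
  obtain ⟨y, hy⟩ := exists_prime_orderOf_dvd_card' p h
  have hy' : orderOf y.1 = p := by rw [Subgroup.orderOf_coe, hy]
  refine ⟨⟨y.1, fun e => hp.ne_one ?_⟩, y.2, hy'⟩
  rw [← hy', e, orderOf_one]

theorem order_dvd {H : Subgroup G} {x : G} (hx : x ∈ H) : orderOf x ∣ Nat.card H := by
  have := orderOf_dvd_natCard (⟨x, hx⟩ : H)
  rwa [← Subgroup.orderOf_coe] at this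

/-- The graph sees the primes up to a relabelling. -/
theorem exists_prime [Finite G] [Finite G'] {H : Subgroup G} {H' : Subgroup G'} (hH : H ≠ ⊥)
    (hH' : H' ≠ ⊥) (φ : ncGraph H ≃g ncGraph H') {p : ℕ} (hp : p.Prime) (h : p ∣ Nat.card H) :
    ∃ q : ℕ, q.Prime ∧ ∀ x : {g : G // g ≠ 1}, p ∣ orderOf x.1 ↔ q ∣ orderOf (φ x).1 := by
  obtain ⟨y, hy, hyp⟩ := exists_order H hp h
  have hy' := maps_to hH' φ y hy
  obtain ⟨q, hq, hqy⟩ := Nat.exists_prime_and_dvd (n := orderOf (φ y).1)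
    (fun e => (φ y).2 (orderOf_eq_one_iff.1 e))
  obtain ⟨z, hz, hzq⟩ := exists_order H' hq (hqy.trans (order_dvd hy'))
  obtain ⟨w, rfl⟩ := φ.surjective z
  have hw : w.1 ∈ H := by simpa using maps_to hH φ.symm _ hz
  have key : ∀ x : {g : G // g ≠ 1}, q ∣ orderOf (φ x).1 → p ∣ orderOf x.1 := by
    intro x hx
    rw [← gcd_prime_ne_one hp, ← hyp, gcd_iff hH' φ x y hy]
    exact gcd_ne_one_of_dvd hq hx hqy
  refine ⟨q, hq, fun x => ⟨fun hx => ?_, key x⟩⟩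
  rw [← gcd_prime_ne_one hq, ← hzq, ← gcd_iff hH' φ x w hw]
  exact gcd_ne_one_of_dvd hp hx (key w (hzq ▸ dvd_rfl))

/-- A bijection of the non-identity elements extends to the groups. -/
noncomputable def extend (φ : {g : G // g ≠ 1} ≃ {g : G' // g ≠ 1}) : G ≃ G' := by
  classical
  exact
  { toFun := fun g => if h : g = 1 then 1 else (φ ⟨g, h⟩).1
    invFun := fun g => if h : g = 1 then 1 else (φ.symm ⟨g, h⟩).1
    left_inv := fun g => by
      by_cases h : g = 1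
      · simp [h]
      · simp [h, (φ ⟨g, h⟩).2]
    right_inv := fun g => by
      by_cases h : g = 1
      · simp [h]
      · simp [h, (φ.symm ⟨g, h⟩).2] }

theorem extend_one (φ : {g : G // g ≠ 1} ≃ {g : G' // g ≠ 1}) : extend φ 1 = 1 := by
  simp [extend]

theorem extend_ne (φ : {g : G // g ≠ 1} ≃ {g : G' // g ≠ 1}) {g : G} (h : g ≠ 1) :
    extend φ g = (φ ⟨g, h⟩).1 := by
  simp [extend, h]

theorem extend_mem {H : Subgroup G} {H' : Subgroup G'}
    (φ : {g : G // g ≠ 1} ≃ {g : G' // g ≠ 1}) (hφ : ∀ a, a.1 ∈ H ↔ (φ a).1 ∈ H') (g : G) :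
    g ∈ H ↔ extend φ g ∈ H' := by
  by_cases h : g = 1
  · simp [h, extend_one]
  · rw [extend_ne φ h]
    exact hφ ⟨g, h⟩

theorem card_eq {H : Subgroup G} {H' : Subgroup G'}
    (φ : {g : G // g ≠ 1} ≃ {g : G' // g ≠ 1}) (hφ : ∀ a, a.1 ∈ H ↔ (φ a).1 ∈ H') :
    Nat.card H = Nat.card H' :=
  Nat.card_congr ((extend φ).subtypeEquiv (extend_mem φ hφ))

theorem mem_iff {H : Subgroup G} {H' : Subgroup G'} (hH : H ≠ ⊥) (hH' : H' ≠ ⊥)
    (φ : ncGraph H ≃g ncGraph H') (a : {g : G // g ≠ 1}) : a.1 ∈ H ↔ (φ a).1 ∈ H' :=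
  ⟨maps_to hH' φ a, fun h => by simpa using maps_to hH φ.symm _ h⟩

/-- The relabelling is the identity, by Frobenius' theorem. -/
theorem prime_iff [Finite G] [Finite G'] {H : Subgroup G} {H' : Subgroup G'} (hH : H ≠ ⊥)
    (hH' : H' ≠ ⊥) (φ : ncGraph H ≃g ncGraph H') {p : ℕ} (hp : p.Prime) (h : p ∣ Nat.card H)
    (x : {g : G // g ≠ 1}) : p ∣ orderOf x.1 ↔ p ∣ orderOf (φ x).1 := by
  obtain ⟨q, hq, hpq⟩ := exists_prime hH hH' φ hp h
  by_cases e : p = q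
  · subst e
    exact hpq x
  exfalso
  have hmem : ∀ a, a.1 ∈ H ↔ (φ.toEquiv a).1 ∈ H' := mem_iff hH hH' φ
  have hcard := card_eq φ.toEquiv hmem
  have hN : Nat.card {y : H // ¬ p ∣ orderOf y} = Nat.card {y : H' // ¬ q ∣ orderOf y} := by
    refine Nat.card_congr (((extend φ.toEquiv).subtypeEquiv
      (extend_mem φ.toEquiv hmem)).subtypeEquiv fun y => not_congr ?_)
    rw [← Subgroup.orderOf_coe, ← Subgroup.orderOf_coe]
    show p ∣ orderOf y.1 ↔ q ∣ orderOf (extend φ.toEquiv y.1)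
    by_cases h1 : y.1 = 1
    · rw [h1, extend_one, orderOf_one, orderOf_one, Nat.dvd_one, Nat.dvd_one]
      exact ⟨fun h => absurd h hp.ne_one, fun h => absurd h hq.ne_one⟩
    · rw [extend_ne _ h1]
      exact hpq ⟨y.1, h1⟩
  have hdvd : Nat.card H ∣ Nat.card {y : H // ¬ p ∣ orderOf y} := by
    rw [Nat.dvd_iff_prime_pow_dvd_dvd]
    intro r k hr hk
    have hr' : r.Prime := hr
    have h1 : r ^ k ∣ ordProj[r] (Nat.card H) :=
      pow_dvd_pow r ((hr'.pow_dvd_iff_le_factorization Nat.card_pos.ne').1 hk)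
    refine h1.trans ?_
    by_cases h2 : p = r
    · subst h2
      rw [hN, hcard]
      exact regular_dvd hq hp (fun h => e h.symm)
    · exact regular_dvd hp hr' h2
  have hpos : 0 < Nat.card {y : H // ¬ p ∣ orderOf y} := by
    have : Nonempty {y : H // ¬ p ∣ orderOf y} :=
      ⟨⟨1, by rw [orderOf_one, Nat.dvd_one]; exact hp.ne_one⟩⟩
    exact Nat.card_pos
  have hlt : Nat.card {y : H // ¬ p ∣ orderOf y} < Nat.card H := by
    obtain ⟨y, hy, hyp⟩ := exists_order H hp h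
    refine Finite.card_subtype_lt (x := (⟨y.1, hy⟩ : H)) (not_not.2 ?_)
    rw [← Subgroup.orderOf_coe]
    exact hyp ▸ dvd_rfl
  exact absurd (Nat.le_of_dvd hpos hdvd) (not_le.2 hlt)

theorem adj_of_primes {H : Subgroup G} {H' : Subgroup G'}
    (φ : {g : G // g ≠ 1} ≃ {g : G' // g ≠ 1}) (hφ : ∀ a, a.1 ∈ H ↔ (φ a).1 ∈ H')
    (hp : ∀ (a : {g : G // g ≠ 1}) (p : ℕ), p.Prime → p ∣ Nat.card H →
      (p ∣ orderOf a.1 ↔ p ∣ orderOf (φ a).1)) (a b : {g : G // g ≠ 1}) :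
    (ncGraph H').Adj (φ a) (φ b) ↔ (ncGraph H).Adj a b := by
  rw [adj_iff, adj_iff, φ.injective.ne_iff, ← hφ, ← hφ]
  refine and_congr_right fun _ => and_congr_left fun hab => ⟨fun hg => ?_, fun hg => ?_⟩
  · obtain ⟨r, hr, hd⟩ := Nat.exists_prime_and_dvd hg
    have h1 := hd.trans (Nat.gcd_dvd_left _ _)
    have h2 := hd.trans (Nat.gcd_dvd_right _ _)
    have h3 : r ∣ Nat.card H := by
      rw [card_eq φ hφ]
      rcases hab with h | h
      · exact h1.trans (order_dvd ((hφ a).1 h))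
      · exact h2.trans (order_dvd ((hφ b).1 h))
    exact gcd_ne_one_of_dvd hr ((hp a r hr h3).2 h1) ((hp b r hr h3).2 h2)
  · obtain ⟨r, hr, hd⟩ := Nat.exists_prime_and_dvd hg
    have h1 := hd.trans (Nat.gcd_dvd_left _ _)
    have h2 := hd.trans (Nat.gcd_dvd_right _ _)
    have h3 : r ∣ Nat.card H := by
      rcases hab with h | h
      · exact h1.trans (order_dvd h)
      · exact h2.trans (order_dvd h)
    exact gcd_ne_one_of_dvd hr ((hp a r hr h3).1 h1) ((hp b r hr h3).1 h2)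

end Pool.Agent.Lib.MP_acde3d_al
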