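import Mathlib

/-! The generalized non-coprime graph and the twin argument (copied from the earlier hand-in
Recover of helper12). -/

namespace Pool.Agent.Lib.MP_acde3d_al

/-- The generalized non-coprime graph of a group `G` and a subgroup `H`: the vertices are the
non-identity elements, and distinct `a`, `b` are adjacent when their orders are not coprime and
one of them lies in `H`. -/
def ncGraph {G : Type} [Group G] (H : Subgroup G) : SimpleGraph {g : G // g ≠ 1} where
  Adj a b := a ≠ b ∧ Nat.gcd (orderOf a.1) (orderOf b.1) ≠ 1 ∧ (a.1 ∈ H ∨ b.1 ∈ H)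
  symm := ⟨fun _ _ h => ⟨h.1.symm, by rw [Nat.gcd_comm]; exact h.2.1, h.2.2.symm⟩⟩
  loopless := ⟨fun _ h => h.1 rfl⟩

variable {G G' : Type} [Group G] [Group G']

theorem adj_iff {H : Subgroup G} {a b : {g : G // g ≠ 1}} : (ncGraph H).Adj a b ↔
    a ≠ b ∧ Nat.gcd (orderOf a.1) (orderOf b.1) ≠ 1 ∧ (a.1 ∈ H ∨ b.1 ∈ H) := Iff.rfl

theorem orderOf_eq_two {a : G} (h1 : a ≠ 1) (h : a⁻¹ = a) : orderOf a = 2 := by
  have : Fact (Nat.Prime 2) := ⟨Nat.prime_two⟩
  refine orderOf_eq_prime ?_ h1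
  rw [sq]
  nth_rewrite 1 [← h]
  exact inv_mul_cancel a

theorem gcd_two_ne_one {n : ℕ} : Nat.gcd n 2 ≠ 1 ↔ 2 ∣ n := by
  rw [Ne, Nat.gcd_comm, ← Nat.coprime_iff_gcd_eq_one, Nat.prime_two.coprime_iff_not_dvd, not_not]

/-- an element outside `H` cannot be the only one with order not coprime to that of `b ∈ H` -/
theorem twin {H : Subgroup G} {a b : G} (ha : a ∉ H) (hb : b ∈ H) (hb1 : b ≠ 1)
    (hab : Nat.gcd (orderOf a) (orderOf b) ≠ 1)
    (huniq : ∀ x, x ∉ H → Nat.gcd (orderOf x) (orderOf b) ≠ 1 → x = a) : False := by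
  have ha1 : a ≠ 1 := fun h => ha (h ▸ H.one_mem)
  have hinv : a⁻¹ = a := huniq _ (fun h => ha (H.inv_mem_iff.1 h)) (by rwa [orderOf_inv])
  have h2 := orderOf_eq_two ha1 hinv
  have hb2 : 2 ∣ orderOf b := by
    rw [h2, Nat.gcd_comm] at hab
    exact gcd_two_ne_one.1 hab
  have hconj : b * a * b⁻¹ = a := by
    refine huniq _ (fun h => ha ?_) ?_
    · have := H.mul_mem (H.mul_mem (H.inv_mem hb) h) hb
      simpa [mul_assoc] using this
    · have : orderOf (b * a * b⁻¹) = orderOf a :=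
        (SemiconjBy.orderOf_eq b (by simp [SemiconjBy])).symm
      rwa [this]
  have hcomm : Commute a b := by
    have : b * a = a * b := by rw [← mul_inv_eq_iff_eq_mul]; exact hconj
    exact this.symm
  have hnot : a * b ∉ H := fun h => ha (by simpa using H.mul_mem h (H.inv_mem hb))
  have heven : 2 ∣ orderOf (a * b) := by
    by_contra hodd
    obtain ⟨k, hk⟩ : Odd (orderOf (a * b)) := Nat.not_even_iff_odd.1 fun h => hodd h.two_dvd
    have h := pow_orderOf_eq_one (a * b)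
    have ha2 : a ^ 2 = 1 := h2 ▸ pow_orderOf_eq_one a
    rw [hcomm.mul_pow, hk, pow_succ, pow_mul, ha2, one_pow, one_mul] at h
    exact ha (by rw [eq_inv_of_mul_eq_one_left h]; exact H.inv_mem (H.pow_mem hb _))
  have := huniq _ hnot (fun h => by
    have := Nat.dvd_gcd heven hb2
    rw [h] at this
    omega)
  exact hb1 (by simpa using this)

/-- a vertex of `H` sent outside `H'` is the only element of `H` of its order -/
theorem unique_order {H : Subgroup G} {H' : Subgroup G'} (φ : ncGraph H ≃g ncGraph H')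
    (a c : {g : G // g ≠ 1}) (ha : a.1 ∈ H) (ha' : (φ a).1 ∉ H') (_hc : c.1 ∈ H)
    (hord : orderOf c.1 = orderOf a.1) : c = a := by
  by_contra hne
  have hac : (ncGraph H).Adj a c := by
    refine ⟨fun h => hne h.symm, ?_, Or.inl ha⟩
    rw [hord, Nat.gcd_self, Ne, orderOf_eq_one_iff]
    exact a.2
  have hac' := φ.map_adj_iff.2 hac
  have hc' : (φ c).1 ∈ H' := hac'.2.2.resolve_left ha'
  refine twin ha' hc' (φ c).2 hac'.2.1 fun x hx hg => ?_
  have hx1 : x ≠ 1 := fun h => hx (h ▸ H'.one_mem)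
  obtain ⟨y, hy⟩ := φ.surjective ⟨x, hx1⟩
  have hy' : (φ y).1 = x := congrArg Subtype.val hy
  by_contra hxa
  have hya : y ≠ a := fun h => hxa (by rw [← hy', h])
  have hyc : (ncGraph H).Adj y c := by
    refine φ.map_adj_iff.1 ⟨fun h => hx ?_, by rwa [hy'], Or.inr hc'⟩
    rw [← hy', h]; exact hc'
  have hya' : (ncGraph H).Adj y a := ⟨hya, hord ▸ hyc.2.1, Or.inr ha⟩
  have := (φ.map_adj_iff.2 hya').2.2
  rw [hy'] at this
  exact this.elim hx ha'

theorem order_two {H : Subgroup G} {H' : Subgroup G'} (φ : ncGraph H ≃g ncGraph H')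
    (a : {g : G // g ≠ 1}) (ha : a.1 ∈ H) (ha' : (φ a).1 ∉ H') : orderOf a.1 = 2 := by
  have := unique_order φ a ⟨a.1⁻¹, inv_ne_one.2 a.2⟩ ha ha' (H.inv_mem ha) (orderOf_inv _)
  exact orderOf_eq_two a.2 (congrArg Subtype.val this)

theorem maps_to {H : Subgroup G} {H' : Subgroup G'} (hH' : H' ≠ ⊥)
    (φ : ncGraph H ≃g ncGraph H') (a : {g : G // g ≠ 1}) (ha : a.1 ∈ H) : (φ a).1 ∈ H' := by
  by_contra ha'
  have h2 := order_two φ a ha ha'
  have himg : ∀ x : {g : G // g ≠ 1}, x.1 ∉ H → 2 ∣ orderOf x.1 → (φ x).1 ∈ H' := by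
    intro x hx he
    have : (ncGraph H).Adj x a :=
      ⟨fun h => hx (h ▸ ha), by rw [h2]; exact gcd_two_ne_one.2 he, Or.inr ha⟩
    exact (φ.map_adj_iff.2 this).2.2.resolve_right ha'
  have heven : ∀ x : G, 2 ∣ orderOf x → x ∈ H := by
    intro b hb
    by_contra hbH
    have hb1 : b ≠ 1 := fun h => hbH (h ▸ H.one_mem)
    refine twin hbH ha a.2 (by rw [h2]; exact gcd_two_ne_one.2 hb) fun x hx hg => ?_
    have hx1 : x ≠ 1 := fun h => hx (h ▸ H.one_mem)
    rw [h2] at hg
    have hb' := himg ⟨b, hb1⟩ hbH hb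
    have hx' := himg ⟨x, hx1⟩ hx (gcd_two_ne_one.1 hg)
    have e1 := order_two φ.symm _ hb' (by simpa using hbH)
    have e2 := order_two φ.symm _ hx' (by simpa using hx)
    have := unique_order φ.symm _ _ hb' (by simpa using hbH) hx' (e2.trans e1.symm)
    exact congrArg Subtype.val (φ.injective this)
  have htop : ∀ x : G, x ∈ H := by
    intro x
    by_contra hx
    have hord : orderOf (x * a.1 * x⁻¹) = orderOf a.1 :=
      (SemiconjBy.orderOf_eq x (by simp [SemiconjBy])).symm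
    have hne : x * a.1 * x⁻¹ ≠ 1 := by
      rw [Ne, ← orderOf_eq_one_iff, hord, h2]; omega
    have hconj : x * a.1 * x⁻¹ = a.1 := congrArg Subtype.val
      (unique_order φ a ⟨_, hne⟩ ha ha' (heven _ (by rw [hord, h2])) hord)
    have hcomm : Commute x a.1 := by
      rw [mul_inv_eq_iff_eq_mul] at hconj; exact hconj
    have hxodd : ¬ 2 ∣ orderOf x := fun h => hx (heven _ h)
    have hxa : ¬ 2 ∣ orderOf (x * a.1) := fun h =>
      hx (by simpa using H.mul_mem (heven _ h) (H.inv_mem ha))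
    have hcop : Nat.Coprime (orderOf x) (orderOf a.1) := by
      rw [h2]
      by_contra h
      exact hxodd (gcd_two_ne_one.1 h)
    rw [hcomm.orderOf_mul_eq_mul_orderOf_of_coprime hcop, h2] at hxa
    exact hxa (Dvd.intro_left _ rfl)
  obtain ⟨⟨h, hh⟩, hh1⟩ := Subgroup.ne_bot_iff_exists_ne_one.1 hH'
  have hh1' : h ≠ 1 := fun e => hh1 (Subtype.ext e)
  have hnot : (φ a).1 * h ∉ H' := fun e => ha' (by simpa using H'.mul_mem e (H'.inv_mem hh))
  have hne : (φ a).1 * h ≠ 1 := fun e => hnot (by rw [e]; exact H'.one_mem)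
  obtain ⟨y, hy⟩ := φ.surjective ⟨_, hne⟩
  have hy' : (φ y).1 = (φ a).1 * h := congrArg Subtype.val hy
  have hy2 := order_two φ y (htop _) (by rw [hy']; exact hnot)
  have := unique_order φ a y ha ha' (htop _) (hy2.trans h2.symm)
  rw [this] at hy'
  exact hh1' (by simpa using hy'.symm)

end Pool.Agent.Lib.MP_acde3d_al
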